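import Pool.Agent.Q31.GLW.Stm

/-!
# Project GLW: one step of the recursion (job GLW-EL)
-/

set_option autoImplicit false

namespace Pool.Agent.Q214.GLW

open Module Cardinal Submodule Pool.Agent.Q31.GLW

section
variable {F V : Type} [Field F] [AddCommGroup V] [Module F V]

lemma pe_of_conj {x k : V ≃ₗ[F] V} (h : IsConj x k) (hk : Pe k) : Pe x := by
  obtain ⟨c, hc⟩ := isConj_iff.mp h
  have h1 : ∀ v, k (c v) = c (x v) := by
    intro v
    rw [← hc]
    show c (x (c⁻¹ (c v))) = c (x v)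
    have h2 : c⁻¹ (c v) = v := c.symm_apply_apply v
    rw [h2]
  rcases hk with ⟨r, hr⟩ | hk
  · refine Or.inl ⟨r, fun v => c.injective ?_⟩
    rw [← h1, hr, map_smul]
  · refine Or.inr fun r => ?_
    have h3 : (LinearMap.range ((x : V →ₗ[F] V) - r • LinearMap.id)).map (c : V →ₗ[F] V) =
        LinearMap.range ((k : V →ₗ[F] V) - r • LinearMap.id) := by
      rw [← LinearMap.range_comp]
      have h4 : (c : V →ₗ[F] V) ∘ₗ ((x : V →ₗ[F] V) - r • LinearMap.id) =
          ((k : V →ₗ[F] V) - r • LinearMap.id) ∘ₗ (c : V →ₗ[F] V) := by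
        ext v
        show c (x v - r • v) = k (c v) - r • c v
        rw [h1, map_sub, map_smul]
      rw [h4]
      exact LinearMap.range_comp_of_range_eq_top _ (LinearEquiv.range c)
    have := hk r
    exact Module.Finite.equiv (Submodule.Quotient.equiv _ _ c h3).symm

lemma pe_of_onto {w : V ≃ₗ[F] V} (h : ∀ c : F, c ≠ 0 → ∀ v, ∃ y, w y = v + c • y) : Pe w := by
  refine Or.inr fun c => ?_
  have h1 : LinearMap.range ((w : V →ₗ[F] V) - c • LinearMap.id) = ⊤ := by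
    rw [LinearMap.range_eq_top]
    intro v
    by_cases hc : c = 0
    · refine ⟨w.symm v, ?_⟩
      show w (w.symm v) - c • w.symm v = v
      rw [hc, zero_smul, sub_zero, LinearEquiv.apply_symm_apply]
    · obtain ⟨y, hy⟩ := h c hc v
      refine ⟨y, ?_⟩
      show w y - c • y = v
      rw [hy, add_sub_cancel_right]
  rw [h1]
  infer_instance

/-- entries in `K` as entries in `V ≃ₗ V` -/
def coeK (K : Subgroup (V ≃ₗ[F] V)) (b : K × Bool) : (V ≃ₗ[F] V) × Bool := ((b.1 : V ≃ₗ[F] V), b.2)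

lemma exists_list (K : Subgroup (V ≃ₗ[F] V)) : ∀ M : List ((V ≃ₗ[F] V) × Bool),
    (∀ b ∈ M, b.1 ∈ K) → ∃ M' : List (K × Bool), M'.map (coeK K) = M
  | [], _ => ⟨[], rfl⟩
  | b :: M, h => by
    obtain ⟨M', hM'⟩ := exists_list K M fun c hc => h c (List.mem_cons_of_mem _ hc)
    exact ⟨(⟨b.1, h b List.mem_cons_self⟩, b.2) :: M', by rw [List.map_cons, hM']; rfl⟩

end

theorem t_EL (hDN : S_DN) (hRS : S_RS) (hRED : S_RED) : S_EL := by
  intro F V _ _ _ _ _ K hKc hK U g hU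
  have : Countable K := hKc.to_subtype
  obtain ⟨f, hf⟩ := exists_surjective_nat ((K × Bool) × List (K × Bool) × F × V)
  obtain ⟨h, hg, hD⟩ := hRS F V U g hU (fun n => {q : V →ₗ.[F] V |
      Cyc (coeK K (f n).1) ((f n).2.1.map (coeK K)) → (f n).2.2.1 ≠ 0 →
        ∀ h : V ≃ₗ[F] V, Ext q h → ∃ y,
          ev h (coeK K (f n).1 :: (f n).2.1.map (coeK K)) y = (f n).2.2.2 + (f n).2.2.1 • y}) (by
    intro n p hp
    by_cases hc : Cyc (coeK K (f n).1) ((f n).2.1.map (coeK K)) ∧ (f n).2.2.1 ≠ 0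
    · obtain ⟨q, hq1, hq2, hq3⟩ := hDN F V U g hU ((f n).1.1 : V ≃ₗ[F] V) (f n).1.2
        ((f n).2.1.map (coeK K)) (hK _ (f n).1.1.2) (by
          intro b hb
          obtain ⟨b', -, rfl⟩ := List.mem_map.mp hb
          exact hK _ b'.1.2) hc.1 (f n).2.2.1 (f n).2.2.2 hc.2 p hp
      exact ⟨q, fun _ _ => hq3, hq1, hq2⟩
    · exact ⟨p, fun h1 h2 => absurd ⟨h1, h2⟩ hc, hp, le_refl p⟩)
  refine ⟨h, hg, fun x hx => ?_⟩
  rcases hRED F V K h x hx with ⟨k, hk, hxk⟩ | ⟨a, M, ha, hM, hcyc, hxw⟩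
  · exact pe_of_conj hxk (hK k hk)
  · refine pe_of_conj hxw (pe_of_onto fun c hc v => ?_)
    obtain ⟨M', hM'⟩ := exists_list K M hM
    obtain ⟨n, hn⟩ := hf ((⟨a.1, ha⟩, a.2), M', c, v)
    obtain ⟨q, hq, hqh⟩ := hD n
    have h1 : coeK K (f n).1 = a := by rw [hn]; rfl
    have h2 : (f n).2.1.map (coeK K) = M := by rw [hn]; exact hM'
    have h3 : (f n).2.2.1 = c := by rw [hn]
    have h4 : (f n).2.2.2 = v := by rw [hn]
    have h5 := hq
    simp only [Set.mem_ofPred_eq, h1, h2, h3, h4] at h5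
    exact h5 hcyc hc h hqh

end Pool.Agent.Q214.GLW
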